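import Mathlib
import Pool.Graph.R_pool_sql_team_seeded_620a6dc7.H395.Sowing
import Pool.Agent.Helper52.Sow.Main

/-!
# Sowing: every `n·↑`, every tiny-`n` and every nimber `*n` is the value of a Sowing position

The game Sowing, the values `copies n up`, `tiny n`, `nim n` and the rows `upPos n`, `tinyPos n` are those
of the library module `H395.Sowing`, where the statements on `upPos` and `tinyPos` are proved. New here are
the rows `nimPos n` of value `*n`.

The row `nimPos n` has `n` nested levels. It consists of full pots, except for four pairs of adjacent pots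
in each level `h < n`: with `R = 100 (n + 1) 4 ^ h` the pots at `± R` hold `2 R + 2` seeds and the pots at
`± (R + 1)`, `± (3 R + 1)`, `± (3 R + 2)` are empty. Left can sow the big pot at `- R`, which adds one seed
to all pots of the lower levels and to the pair at `R`, `R + 1`; she cannot sow the one at `R`, because the
last seed would come to the empty pot at `3 R + 2`. Symmetrically for Right. After such a move all
the other pairs of the levels up to `h` have two nonempty pots (or two empty ones), and a pair of
adjacent nonempty pots among full pots has the value zero: a move in the pair is answered in the same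
pair. So a move in level `h` leaves only the moves in the higher levels: the value is `*n`.
-/

set_option autoImplicit false

namespace Pool.Agent.Results.MP_58e104_co.SowingABC

open Pool.Agent.H395.Sowing Pool.Agent.Helper52.SowNim

/-- the place of the big pots of level `h` in the row `nimPos n`: `100 (n + 1) 4 ^ h` -/
def place (n h : ℕ) : ℕ := 100 * (n + 1) * 4 ^ h

/-- The row of value `*n`. It is on the pots `j` with `|j| ≤ place n n`. The pots with `|j| = place n h`,
`h < n`, hold `2 |j| + 2` seeds, the pots with `|j|` equal to `place n h + 1`, `3 place n h + 1` or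
`3 place n h + 2`, `h < n`, are empty, and all other ones are full: they hold `2 place n n + 1` seeds. -/
def nimPos (n : ℕ) : ℤ → ℕ := fun j =>
  open Classical in
  if place n n < j.natAbs then 0
  else if ∃ h < n, j.natAbs = place n h then 2 * j.natAbs + 2
  else if ∃ h < n, j.natAbs = place n h + 1 ∨ j.natAbs = 3 * place n h + 1 ∨
    j.natAbs = 3 * place n h + 2 then 0
  else 2 * place n n + 1

theorem geo (n : ℕ) : Geo n (place n n) (place n) := by
  refine ⟨fun h _ => ?_, fun a b hab _ => ?_, fun h hh => ?_⟩
  · unfold place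
    exact Nat.le_mul_of_pos_right _ (by positivity)
  · unfold place
    have h1 : 4 ^ (a + 1) ≤ 4 ^ b := Nat.pow_le_pow_right (by norm_num) hab
    calc 4 * (100 * (n + 1) * 4 ^ a) = 100 * (n + 1) * 4 ^ (a + 1) := by ring
      _ ≤ 100 * (n + 1) * 4 ^ b := Nat.mul_le_mul_left _ h1
  · unfold place
    have h1 : 4 ^ (h + 1) ≤ 4 ^ n := Nat.pow_le_pow_right (by norm_num) hh
    calc 4 * (100 * (n + 1) * 4 ^ h) = 100 * (n + 1) * 4 ^ (h + 1) := by ring
      _ ≤ 100 * (n + 1) * 4 ^ n := Nat.mul_le_mul_left _ h1

theorem nimPos_mir (n : ℕ) : mir (nimPos n) = nimPos n := by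
  funext j
  unfold mir nimPos
  simp only [Int.natAbs_neg]

theorem nimPos_isPosition (n : ℕ) : IsPosition (nimPos n) := by
  refine (Set.finite_Icc (-(place n n : ℤ)) (place n n)).subset fun i hi => ?_
  rw [Set.mem_Icc]
  by_contra hc
  apply hi
  unfold nimPos
  rw [if_pos (by omega)]

theorem nimPos_big {n h : ℕ} (hh : h < n) {j : ℤ} (hj : j.natAbs = place n h) :
    nimPos n j = 2 * place n h + 2 := by
  have hE := (geo n).le h hh
  unfold nimPos
  rw [if_neg (by omega), if_pos ⟨h, hh, hj⟩, hj]

theorem nimPos_empty {n h : ℕ} (hh : h < n) {j : ℤ} (hj : j.natAbs = place n h + 1 ∨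
    j.natAbs = 3 * place n h + 1 ∨ j.natAbs = 3 * place n h + 2) : nimPos n j = 0 := by
  have hE := (geo n).le h hh
  have hr := (geo n).big h hh
  unfold nimPos
  rw [if_neg (by omega), if_neg, if_pos ⟨h, hh, hj⟩]
  rintro ⟨h', hh', hj'⟩
  have hr' := (geo n).big h' hh'
  rcases (geo n).two hh hh' with ⟨_, ht⟩ | rfl | ⟨_, ht⟩ <;> omega

theorem nimPos_nest (n : ℕ) : ∃ s B, Nest n (place n n) (place n) n s B (nimPos n) := by
  refine ⟨0, (Finset.range n).image (fun h => (place n h : ℤ)) ∪
    (Finset.range n).image (fun h => -(place n h : ℤ)), ?_, ?_, le_rfl, ?_, ?_, ?_, ?_⟩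
  · intro j h1 h2 h3
    unfold nimPos
    rw [if_neg (by omega), if_neg, if_neg]
    · rintro ⟨h, hh, hj⟩
      rcases le_total 0 j with h0 | h0
      · rcases hj with hj | hj | hj
        · exact h3 ⟨h, hh, _, Or.inl rfl, Or.inr (by omega)⟩
        · exact h3 ⟨h, hh, _, Or.inr (Or.inl rfl), Or.inl (by omega)⟩
        · exact h3 ⟨h, hh, _, Or.inr (Or.inl rfl), Or.inr (by omega)⟩
      · rcases hj with hj | hj | hj
        · exact h3 ⟨h, hh, _, Or.inr (Or.inr (Or.inl rfl)), Or.inl (by omega)⟩
        · exact h3 ⟨h, hh, _, Or.inr (Or.inr (Or.inr rfl)), Or.inr (by omega)⟩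
        · exact h3 ⟨h, hh, _, Or.inr (Or.inr (Or.inr rfl)), Or.inl (by omega)⟩
    · rintro ⟨h, hh, hj⟩
      rcases le_total 0 j with h0 | h0
      · exact h3 ⟨h, hh, _, Or.inl rfl, Or.inl (by omega)⟩
      · exact h3 ⟨h, hh, _, Or.inr (Or.inr (Or.inl rfl)), Or.inr (by omega)⟩
  · intro j hj
    unfold nimPos
    rw [if_pos (by omega)]
  · have h1 := Finset.card_union_le ((Finset.range n).image (fun h => (place n h : ℤ)))
      ((Finset.range n).image (fun h => -(place n h : ℤ)))
    have h2 := Finset.card_image_le (s := Finset.range n) (f := fun h => (place n h : ℤ))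
    have h3 := Finset.card_image_le (s := Finset.range n) (f := fun h => -(place n h : ℤ))
    rw [Finset.card_range] at h2 h3
    omega
  · intro j hj
    rw [Finset.mem_union, Finset.mem_image, Finset.mem_image] at hj
    rcases hj with ⟨h, hh, rfl⟩ | ⟨h, hh, rfl⟩
    · exact ⟨h, Finset.mem_range.1 hh, Or.inl rfl⟩
    · exact ⟨h, Finset.mem_range.1 hh, Or.inr rfl⟩
  · intro h hh _
    refine ⟨⟨nimPos_big hh (by omega), nimPos_empty hh (by omega)⟩,
      ⟨nimPos_empty hh (by omega), nimPos_empty hh (by omega)⟩,
      ⟨nimPos_big hh (by omega), nimPos_empty hh (by omega)⟩,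
      ⟨nimPos_empty hh (by omega), nimPos_empty hh (by omega)⟩, ?_, ?_⟩
    · exact Finset.mem_union_left _ (Finset.mem_image.2 ⟨h, Finset.mem_range.2 hh, rfl⟩)
    · exact Finset.mem_union_right _ (Finset.mem_image.2 ⟨h, Finset.mem_range.2 hh, rfl⟩)
  · intro h hk
    omega

/-- the row `nimPos n` has the value `*n` -/
theorem nimPos_value (n : ℕ) : HasValue (nimPos n) (nim n) :=
  value_of_strategy (strategy (geo n)) (nimPos_isPosition n) (nimPos_nest n) (nimPos_mir n)

/-- **The values `n·↑`, tiny-`n` and `*n` of Sowing positions.** All three sets `A`, `B`, `C` of the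
problem contain every positive integer: for every `n ≥ 1` the explicit Sowing position `upPos n` has
the value `n·↑`, the explicit position `tinyPos n` has the value tiny-`n`, and the explicit position
`nimPos n` has the value `*n`. -/
theorem result :
    (∀ n : ℕ, 1 ≤ n → IsPosition (upPos n) ∧ HasValue (upPos n) (copies n up)) ∧
    (∀ n : ℕ, 1 ≤ n → IsPosition (tinyPos n) ∧ HasValue (tinyPos n) (tiny n)) ∧
    (∀ n : ℕ, 1 ≤ n → IsPosition (nimPos n) ∧ HasValue (nimPos n) (nim n)) := by
  refine ⟨fun n _ => upPos_value n, fun n hn => ?_,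
    fun n _ => ⟨nimPos_isPosition n, nimPos_value n⟩⟩
  obtain ⟨m, rfl⟩ : ∃ m, n = m + 1 := ⟨n - 1, by omega⟩
  exact ⟨tinyPos_isPosition _, tinyPos_value m⟩

end Pool.Agent.Results.MP_58e104_co.SowingABC
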